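import Pool.Agent.H23.BG.TargetsF
import Pool.Agent.H60.GLB.CG
import Pool.Agent.H48.RC.CN
import Pool.Agent.H50.RC.CV
import Pool.Agent.H16.RC.CW

/-!
# The dual coefficients of a primitive Hecke character
-/

set_option autoImplicit false
set_option linter.unusedVariables false

open NumberField NumberField.InfinitePlace NumberField.Units
  NumberField.Units.dirichletUnitTheorem MeasureTheory Set Filter Complex
open scoped nonZeroDivisors ENNReal

namespace Pool.Agent.H26.BG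

open Pool.Agent.H25.HK Pool.Agent.H23.LB Pool.Agent.H23.LC Pool.Agent.H29.DW Pool.Agent.H25
open Pool.Agent.H28.RC (Rep ft idl T_ID T_RX)
open Pool.Agent.H23.BG
open Pool.Agent.H69.RC (sp fzero fadd fsub ex ft_eq ex_add ft_rep sub_mem' rep_scale rep_J)
open Pool.Agent.H60.GLB (g0 cg_eq_g0 cg_zero_g0 cg_mul_a cg_periodic cg_zero_of_ne_top)
open Pool.Agent.H50.RC (fsmul mul_mem_fD sub_mem_of_mul)
open Pool.Agent.H48.RC (ex_add' conj_ex ortho fneg)
open Pool.Agent.H16.RC (exp_trace_one trace_int coe_ideal_ne)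

section

variable {K : Type} [Field K] [NumberField K] {f : Ideal (𝓞 K)}

/-- the dual lattice of `f M` -/
noncomputable abbrev dd (f : Ideal (𝓞 K)) (M : FI K) : FI K := du K ((f : FI K) * M)

/-- the infinite part -/
noncomputable def ui (χ : HG K f) (t : K) : ℂ :=
  (starRingEnd ℂ) (ag χ.k t) * (starRingEnd ℂ) (ph χ.ν t)

theorem ui_mul (hAG : U_AG) (hPU : T_PU) (χ : HG K f) {x y : K} (hx : x ≠ 0) (hy : y ≠ 0) :
    ui χ (x * y) = ui χ x * ui χ y := by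
  unfold ui
  rw [(hAG K χ.k).1 x y hx hy, (hPU K).2.2.2.2.2.1 χ.ν x y hx hy, map_mul, map_mul]
  ring

theorem ui_norm (hAG : U_AG) (hPU : T_PU) (χ : HG K f) {x : K} (hx : x ≠ 0) : ‖ui χ x‖ = 1 := by
  unfold ui
  rw [norm_mul, RCLike.norm_conj, RCLike.norm_conj, (hAG K χ.k).2.1 x hx,
    (hPU K).2.2.2.2.2.2 χ.ν x, mul_one]

theorem cg_ui (χ : HG K f) (M : FI K) {x : K} (hx : x ≠ 0) :
    cg χ M x = ui χ x * χ.ψ (idl K M x) := cg_eq_g0 χ M hx

theorem dd_eq (hDU : Pool.Agent.H25.HK.T_DU) (hf : f ≠ ⊥) {M : FI K} (hM : M ≠ 0) :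
    dd f M = ((f : FI K) * M)⁻¹ * du K 1 :=
  (hDU K _ (mul_ne_zero (coe_ideal_ne hf) hM)).2.2.1

theorem dd_ne (hDU : Pool.Agent.H25.HK.T_DU) (hf : f ≠ ⊥) {M : FI K} (hM : M ≠ 0) :
    dd f M ≠ 0 := (hDU K _ (mul_ne_zero (coe_ideal_ne hf) hM)).1

theorem dd_scale (hDU : Pool.Agent.H25.HK.T_DU) (hf : f ≠ ⊥) {M : FI K} (hM : M ≠ 0) {t : K}
    (ht : t ≠ 0) : dd f (sp t * M) = sp t⁻¹ * dd f M := by
  have hspt : sp t ≠ 0 := FractionalIdeal.spanSingleton_ne_zero_iff.2 ht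
  have h : sp t⁻¹ = (sp t)⁻¹ := (FractionalIdeal.spanSingleton_inv (R₁ := 𝓞 K) (K := K) t).symm
  rw [dd_eq hDU hf (mul_ne_zero hspt hM), dd_eq hDU hf hM, h,
    mul_left_comm, mul_inv (sp t), mul_assoc]

theorem dd_J (hDU : Pool.Agent.H25.HK.T_DU) (hf : f ≠ ⊥) {M : FI K} (hM : M ≠ 0)
    {J : Ideal (𝓞 K)} (hJ : J ≠ ⊥) : (J : FI K) * dd f ((J : FI K) * M) = dd f M := by
  have hJ' : (J : FI K) ≠ 0 := FractionalIdeal.coeIdeal_ne_zero.2 hJ
  rw [dd_eq hDU hf (mul_ne_zero hJ' hM), dd_eq hDU hf hM, mul_left_comm (f : FI K),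
    mul_inv (J : FI K), ← mul_assoc, ← mul_assoc, mul_inv_cancel₀ hJ', one_mul]

theorem f_dd (hDU : Pool.Agent.H25.HK.T_DU) (hf : f ≠ ⊥) {M : FI K} (hM : M ≠ 0) :
    (f : FI K) * dd f M = du K M := by
  rw [dd_eq hDU hf hM, (hDU K M hM).2.2.1, mul_inv, ← mul_assoc, ← mul_assoc,
    mul_inv_cancel₀ (coe_ideal_ne hf), one_mul]

theorem dd_dd (hDU : Pool.Agent.H25.HK.T_DU) (hf : f ≠ ⊥) {M : FI K} (hM : M ≠ 0) :
    dd f (dd f M) = M := by
  show du K ((f : FI K) * dd f M) = M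
  rw [f_dd hDU hf hM, (hDU K M hM).2.1]

theorem cg_scale (hAG : U_AG) (hPU : T_PU) (hID : T_ID) (χ : HG K f) (hf : f ≠ ⊥) {M : FI K}
    (hM : M ≠ 0) {t : K} (ht : t ≠ 0) {x : K} (hx : x ∈ M) :
    cg χ (sp t * M) (t * x) = ui χ t * cg χ M x := by
  have hspt : sp t ≠ 0 := FractionalIdeal.spanSingleton_ne_zero_iff.2 ht
  have hne : ∀ x ∈ M, x ≠ 0 → cg χ (sp t * M) (t * x) = ui χ t * cg χ M x := by
    intro x hx hx0
    rw [cg_ui χ _ (mul_ne_zero ht hx0), cg_ui χ _ hx0, (hID K M hM).2.2.2.2.2.2 t ht x hx,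
      ui_mul hAG hPU χ ht hx0]
    ring
  by_cases hx0 : x = 0
  · subst hx0
    obtain ⟨z, hz0, hz⟩ := (hID K ((f : FI K) * M)
      (mul_ne_zero (coe_ideal_ne hf) hM)).2.2.2.2.2.1
    have hzM : z ∈ M := sub_mem' hID hf hM hz
    have h1 := cg_periodic hAG hID χ hf hM (fzero M) hz
    rw [zero_add] at h1
    rw [← h1, ← hne z hzM hz0, mul_zero]
    have h5 : t * z ∈ (f : FI K) * (sp t * M) := by
      rw [mul_left_comm]
      exact FractionalIdeal.mul_mem_mul (FractionalIdeal.mem_spanSingleton_self _ t) hz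
    have h6 := cg_periodic hAG hID χ hf (mul_ne_zero hspt hM) (fzero _) h5
    rw [zero_add] at h6
    exact h6.symm
  · exact hne x hx hx0

theorem cg_J (hAG : U_AG) (hID : T_ID) (χ : HG K f) (hf : f ≠ ⊥) {M : FI K}
    (hM : M ≠ 0) {J : Ideal (𝓞 K)} (hJ : J ≠ ⊥) {x : K} (hx : x ∈ (J : FI K) * M) :
    cg χ M x = χ.ψ J * cg χ ((J : FI K) * M) x := by
  have hJM : (J : FI K) * M ≠ 0 := mul_ne_zero (FractionalIdeal.coeIdeal_ne_zero.2 hJ) hM
  have hne : ∀ x ∈ (J : FI K) * M, x ≠ 0 → cg χ M x = χ.ψ J * cg χ ((J : FI K) * M) x := by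
    intro x hx hx0
    rw [cg_ui χ _ hx0, cg_ui χ _ hx0, ((hID K M hM).2.2.2.2.1 J hJ x hx).2, χ.map_mul]
    ring
  by_cases hx0 : x = 0
  · subst hx0
    obtain ⟨z, hz0, hz⟩ := (hID K ((f : FI K) * ((J : FI K) * M))
      (mul_ne_zero (coe_ideal_ne hf) hJM)).2.2.2.2.2.1
    have hzJ : z ∈ (J : FI K) * M := sub_mem' hID hf hJM hz
    have h1 := cg_periodic hAG hID χ hf hJM (fzero _) hz
    rw [zero_add] at h1
    rw [← h1, ← hne z hzJ hz0]
    have h5 : z ∈ (f : FI K) * M := by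
      rw [mul_left_comm] at hz
      exact sub_mem' hID hJ (mul_ne_zero (coe_ideal_ne hf) hM) hz
    have h6 := cg_periodic hAG hID χ hf hM (fzero _) h5
    rw [zero_add] at h6
    exact h6.symm
  · exact hne x hx hx0

/-- the Gauss sums of a primitive character vanish off the primitive elements -/
theorem cv_zero (hAG : U_AG) (hPU : T_PU) (hID : T_ID) (hDU : Pool.Agent.H25.HK.T_DU)
    (χ : HG K f) (hf : f ≠ ⊥) (hχ : PrG f χ) {M : FI K} (hM : M ≠ 0) {X : Finset K}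
    (hX : Rep K f M X) {P : Ideal (𝓞 K)} (hP : P.IsPrime) (hfP : f ≤ P) {y : K}
    (hy : y ∈ (P : FI K) * dd f M) : ft K X (cg χ M) y = 0 := by
  obtain ⟨a, ha0, ha1, ha2, ha3⟩ := hχ P hP hfP
  have ha0' : (a : K) ≠ 0 := by simpa using ha0
  have hfM : (f : FI K) * M ≠ 0 := mul_ne_zero (coe_ideal_ne hf) hM
  have hPne : P ≠ ⊥ := fun h => hf (le_bot_iff.1 (h ▸ hfP))
  have hD : dd f M ≠ 0 := dd_ne hDU hf hM
  have hy' : y ∈ dd f M := sub_mem' hID hPne hD hy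
  have hch : ∀ r ∈ X, ∃ r', r' ∈ X ∧ (a : K) * r - r' ∈ (f : FI K) * M := fun r hr =>
    (hX.2 ((a : K) * r) (fsmul a (hX.1 r hr))).exists
  choose! g hg hg' using hch
  have hinj : Set.InjOn g (X : Set K) := by
    intro r hr s hs hrs
    have h1 := fsub (hg' r hr) (hg' s hs)
    have h2 : (a : K) * r - g r - ((a : K) * s - g s) = (a : K) * (r - s) := by
      rw [hrs]
      ring
    rw [h2] at h1
    have h3 := sub_mem_of_mul ha1 (fsub (hX.1 r hr) (hX.1 s hs)) h1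
    refine (hX.2 r (hX.1 r hr)).unique ⟨hr, ?_⟩ ⟨hs, h3⟩
    rw [sub_self]
    exact fzero _
  have hsurj : Set.SurjOn g (X : Set K) (X : Set K) :=
    Finset.surjOn_of_injOn_of_card_le g (fun r hr => hg r hr) hinj le_rfl
  have hsum : ft K X (cg χ M) y = ∑ r ∈ X, cg χ M (g r) * ex (g r * y) := by
    rw [ft_eq]
    exact (Finset.sum_nbij g hg hinj hsurj fun r _ => rfl).symm
  have hterm : ∀ r ∈ X, cg χ M (g r) * ex (g r * y) =
      (ui χ (a : K) * χ.ψ (Ideal.span {a})) * (cg χ M r * ex (r * y)) := by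
    intro r hr
    have h1 : cg χ M (g r) = ui χ (a : K) * χ.ψ (Ideal.span {a}) * cg χ M r := by
      have h2 := cg_periodic hAG hID χ hf hM (hX.1 _ (hg r hr)) (hg' r hr)
      rw [add_sub_cancel] at h2
      rw [← h2]
      exact cg_mul_a hAG hID χ hf hM ha0 (hX.1 r hr)
    have h3 : ex (g r * y) = ex (r * y) := by
      have h4 := ex_add hfM (g r) (hg' r hr) hy'
      rw [add_sub_cancel] at h4
      have h5 : ((a : K) - 1) * y ∈ du K M := by
        rw [← f_dd hDU hf hM]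
        exact mul_mem_fD ha2 hy
      have h6 := ex_add (L := du K M) (hDU K M hM).1 (r := y) (l := ((a : K) - 1) * y) (y := r)
        h5 (by rw [(hDU K M hM).2.1]; exact hX.1 r hr)
      have h7 : (y + ((a : K) - 1) * y) * r = (a : K) * r * y := by ring
      rw [h7] at h6
      rw [← h4, h6, mul_comm]
    rw [h1, h3]
    ring
  have hfin : ft K X (cg χ M) y =
      (ui χ (a : K) * χ.ψ (Ideal.span {a})) * ft K X (cg χ M) y := by
    conv_lhs => rw [hsum, Finset.sum_congr rfl hterm, ← Finset.mul_sum]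
    rfl
  have hne : ui χ (a : K) * χ.ψ (Ideal.span {a}) ≠ 1 := by
    intro h
    apply ha3
    have h1 : ag χ.k (a : K) * ph χ.ν (a : K) * ui χ (a : K) = 1 := by
      have h2 : (starRingEnd ℂ) (ui χ (a : K)) = ag χ.k (a : K) * ph χ.ν (a : K) := by
        unfold ui
        rw [map_mul, Complex.conj_conj, Complex.conj_conj]
      rw [← h2, Complex.conj_mul', ui_norm hAG hPU χ ha0']
      norm_num
    calc χ.ψ (Ideal.span {a}) =
          (ag χ.k (a : K) * ph χ.ν (a : K) * ui χ (a : K)) * χ.ψ (Ideal.span {a}) := by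
          rw [h1, one_mul]
      _ = (ag χ.k (a : K) * ph χ.ν (a : K)) * (ui χ (a : K) * χ.ψ (Ideal.span {a})) := by ring
      _ = _ := by rw [h, mul_one]
  have h9 : (1 - ui χ (a : K) * χ.ψ (Ideal.span {a})) * ft K X (cg χ M) y = 0 := by
    rw [sub_mul, one_mul, ← hfin, sub_self]
  exact (mul_eq_zero.1 h9).resolve_left (sub_ne_zero.2 (Ne.symm hne))

open Classical in
/-- the Gauss sum -/
noncomputable def FTg (χ : HG K f) (M : FI K) (y : K) : ℂ :=
  if h : ∃ X, Rep K f M X then ft K h.choose (cg χ M) y else 0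

theorem FTg_eq (hAG : U_AG) (hID : T_ID) (χ : HG K f) (hf : f ≠ ⊥) {M : FI K} (hM : M ≠ 0)
    {X : Finset K} (hX : Rep K f M X) {y : K} (hy : y ∈ dd f M) :
    ft K X (cg χ M) y = FTg χ M y := by
  have h : ∃ X, Rep K f M X := ⟨X, hX⟩
  unfold FTg
  rw [dif_pos h]
  exact ft_rep (mul_ne_zero (coe_ideal_ne hf) hM) hX h.choose_spec _
    (fun x hx l hl => cg_periodic hAG hID χ hf hM hx hl) hy

/-- the normalised Gauss sum -/
noncomputable def WWg (χ : HG K f) (M : FI K) (y : K) : ℂ :=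
  FTg χ M y * (ui χ y * χ.ψ (idl K (dd f M) y))

theorem Wg_scale (hAG : U_AG) (hPU : T_PU) (hID : T_ID) (hDU : Pool.Agent.H25.HK.T_DU)
    (hRX : T_RX) (χ : HG K f) (hf : f ≠ ⊥) {M : FI K} (hM : M ≠ 0) {t : K} (ht : t ≠ 0) {y : K}
    (hy : y ∈ dd f M) (hy0 : y ≠ 0) :
    t⁻¹ * y ∈ dd f (sp t * M) ∧ WWg χ (sp t * M) (t⁻¹ * y) = WWg χ M y := by
  classical
  have hspt : sp t ≠ 0 := FractionalIdeal.spanSingleton_ne_zero_iff.2 ht
  have hy' : t⁻¹ * y ∈ dd f (sp t * M) := by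
    rw [dd_scale hDU hf hM ht]
    exact FractionalIdeal.mul_mem_mul (FractionalIdeal.mem_spanSingleton_self _ t⁻¹) hy
  refine ⟨hy', ?_⟩
  obtain ⟨X, hX, -⟩ := hRX K f M hf hM
  have h1 : FTg χ (sp t * M) (t⁻¹ * y) = ui χ t * FTg χ M y := by
    rw [← FTg_eq hAG hID χ hf hM hX hy,
      ← FTg_eq hAG hID χ hf (mul_ne_zero hspt hM) (rep_scale hX ht) hy', ft_eq,
      ft_eq, Finset.sum_image (fun a _ b _ h => mul_left_cancel₀ ht h), Finset.mul_sum]
    refine Finset.sum_congr rfl fun r hr => ?_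
    rw [cg_scale hAG hPU hID χ hf hM ht (hX.1 r hr)]
    have h2 : t * r * (t⁻¹ * y) = r * y := by
      field_simp
    rw [h2]
    ring
  have h2 : idl K (dd f (sp t * M)) (t⁻¹ * y) = idl K (dd f M) y := by
    rw [dd_scale hDU hf hM ht]
    exact (hID K (dd f M) (dd_ne hDU hf hM)).2.2.2.2.2.2 t⁻¹ (inv_ne_zero ht) y hy
  have h3 : ui χ y = ui χ t * ui χ (t⁻¹ * y) := by
    rw [← ui_mul hAG hPU χ ht (mul_ne_zero (inv_ne_zero ht) hy0), mul_inv_cancel_left₀ ht]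
  unfold WWg
  rw [h1, h2, h3]
  ring

theorem Wg_J (hAG : U_AG) (hID : T_ID) (hDU : Pool.Agent.H25.HK.T_DU)
    (hRX : T_RX) (χ : HG K f) (hf : f ≠ ⊥) {M : FI K} (hM : M ≠ 0) {J : Ideal (𝓞 K)}
    (hJ : J ≠ ⊥) (hJf : J ⊔ f = ⊤) {y : K} (hy : y ∈ dd f M) :
    WWg χ ((J : FI K) * M) y = WWg χ M y := by
  have hJM : (J : FI K) * M ≠ 0 := mul_ne_zero (FractionalIdeal.coeIdeal_ne_zero.2 hJ) hM
  obtain ⟨X, hX, -⟩ := hRX K f _ hf hJM
  have hX' := rep_J hJf hID hf hJ hM hX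
  have hy0 : y ∈ (J : FI K) * dd f ((J : FI K) * M) := by rw [dd_J hDU hf hM hJ]; exact hy
  have hy' : y ∈ dd f ((J : FI K) * M) := sub_mem' hID hJ (dd_ne hDU hf hJM) hy0
  have h1 : FTg χ M y = χ.ψ J * FTg χ ((J : FI K) * M) y := by
    rw [← FTg_eq hAG hID χ hf hM hX' hy, ← FTg_eq hAG hID χ hf hJM hX hy', ft_eq, ft_eq,
      Finset.mul_sum]
    refine Finset.sum_congr rfl fun r hr => ?_
    rw [cg_J hAG hID χ hf hM hJ (hX.1 r hr)]
    ring
  have h2 : idl K (dd f ((J : FI K) * M)) y = J * idl K (dd f M) y := by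
    have h3 := ((hID K _ (dd_ne hDU hf hJM)).2.2.2.2.1 J hJ y hy0).2
    rwa [dd_J hDU hf hM hJ] at h3
  unfold WWg
  rw [h1, h2, χ.map_mul]
  ring

theorem Wg_eq (hAG : U_AG) (hPU : T_PU) (hID : T_ID) (hDU : Pool.Agent.H25.HK.T_DU)
    (hRX : T_RX) (χ : HG K f) (hf : f ≠ ⊥) {M N : FI K} (hM : M ≠ 0) (hN : N ≠ 0) {y z : K}
    (hy : y ∈ dd f M) (hz : z ∈ dd f N) (hy0 : y ≠ 0) (hz0 : z ≠ 0)
    (hyf : idl K (dd f M) y ⊔ f = ⊤) (hzf : idl K (dd f N) z ⊔ f = ⊤) :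
    WWg χ M y = WWg χ N z := by
  have hM' := dd_ne hDU hf hM
  have hN' := dd_ne hDU hf hN
  obtain ⟨J1, hJ1⟩ : ∃ J1, J1 = idl K (dd f M) y := ⟨_, rfl⟩
  obtain ⟨J2, hJ2⟩ : ∃ J2, J2 = idl K (dd f N) z := ⟨_, rfl⟩
  have hJ1e : (J1 : FI K) * dd f M = sp y := by
    rw [hJ1]
    exact (hID K _ hM').1 y hy
  have hJ2e : (J2 : FI K) * dd f N = sp z := by
    rw [hJ2]
    exact (hID K _ hN').1 z hz
  have hJ1b : J1 ≠ ⊥ := by
    rw [hJ1, Ne, (hID K _ hM').2.2.2.1 y hy]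
    exact hy0
  have hJ2b : J2 ≠ ⊥ := by
    rw [hJ2, Ne, (hID K _ hN').2.2.2.1 z hz]
    exact hz0
  have hspy : sp y ≠ 0 := FractionalIdeal.spanSingleton_ne_zero_iff.2 hy0
  have hspz : sp z ≠ 0 := FractionalIdeal.spanSingleton_ne_zero_iff.2 hz0
  have hfM : (f : FI K) * M ≠ 0 := mul_ne_zero (coe_ideal_ne hf) hM
  have hfN : (f : FI K) * N ≠ 0 := mul_ne_zero (coe_ideal_ne hf) hN
  have hD1 : (J1 : FI K) * du K 1 = sp y * ((f : FI K) * M) := by
    rw [← hJ1e, dd_eq hDU hf hM, mul_assoc, mul_right_comm ((f : FI K) * M)⁻¹,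
      inv_mul_cancel₀ hfM, one_mul]
  have hD2 : (J2 : FI K) * du K 1 = sp z * ((f : FI K) * N) := by
    rw [← hJ2e, dd_eq hDU hf hN, mul_assoc, mul_right_comm ((f : FI K) * N)⁻¹,
      inv_mul_cancel₀ hfN, one_mul]
  have hkey : (J2 : FI K) * (sp y * M) = (J1 : FI K) * (sp z * N) := by
    refine mul_left_cancel₀ (coe_ideal_ne hf) ?_
    calc (f : FI K) * ((J2 : FI K) * (sp y * M)) =
          (J2 : FI K) * (sp y * ((f : FI K) * M)) := by ring
      _ = (J1 : FI K) * (sp z * ((f : FI K) * N)) := by rw [← hD1, ← hD2]; ring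
      _ = _ := by ring
  obtain ⟨hy1, hWy⟩ := Wg_scale hAG hPU hID hDU hRX χ hf hM hy0 hy hy0
  obtain ⟨hz1, hWz⟩ := Wg_scale hAG hPU hID hDU hRX χ hf hN hz0 hz hz0
  rw [inv_mul_cancel₀ hy0] at hy1 hWy
  rw [inv_mul_cancel₀ hz0] at hz1 hWz
  have h1 := Wg_J hAG hID hDU hRX χ hf (mul_ne_zero hspy hM) hJ2b (hJ2 ▸ hzf) hy1
  have h2 := Wg_J hAG hID hDU hRX χ hf (mul_ne_zero hspz hN) hJ1b (hJ1 ▸ hyf) hz1
  rw [hkey] at h1
  rw [← hWy, ← hWz, ← h1, ← h2]

theorem idl_one (hID : T_ID) : idl K (1 : FI K) 1 = ⊤ := by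
  refine (hID K 1 one_ne_zero).2.1 ⊤ 1 ?_
  rw [FractionalIdeal.coeIdeal_top, one_mul, FractionalIdeal.spanSingleton_one]

/-- the Gauss sum -/
theorem exists_W (hAG : U_AG) (hPU : T_PU) (hID : T_ID)
    (hDU : Pool.Agent.H25.HK.T_DU) (hRX : T_RX) (χ : HG K f) (hf : f ≠ ⊥) (hχ : PrG f χ) :
    ∃ W : ℂ, ∀ (M : FI K) (X : Finset K), M ≠ 0 → Rep K f M X → ∀ y ∈ dd f M,
      ft K X (cg χ M) y = W * (starRingEnd ℂ) (cg χ (dd f M) y) := by
  have hone : (1 : FI K) ≠ 0 := one_ne_zero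
  obtain ⟨M0, hM0d⟩ : ∃ M0 : FI K, M0 = dd f 1 := ⟨_, rfl⟩
  have hM0 : M0 ≠ 0 := by
    rw [hM0d]
    exact dd_ne hDU hf hone
  have hdu0 : dd f M0 = 1 := by
    rw [hM0d]
    exact dd_dd hDU hf hone
  have h1mem : (1 : K) ∈ (1 : FI K) := FractionalIdeal.one_mem_one _
  refine ⟨WWg χ M0 1, ?_⟩
  intro M X hM hX
  have hfM : (f : FI K) * M ≠ 0 := mul_ne_zero (coe_ideal_ne hf) hM
  have hduM : dd f M ≠ 0 := dd_ne hDU hf hM
  -- case (a)
  have hA : ∀ y ∈ dd f M, y ≠ 0 → idl K (dd f M) y ⊔ f = ⊤ →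
      ft K X (cg χ M) y = WWg χ M0 1 * (starRingEnd ℂ) (cg χ (dd f M) y) := by
    intro y hy hy0 hyf
    have h := Wg_eq hAG hPU hID hDU hRX χ hf hM hM0 hy (by rw [hdu0]; exact h1mem) hy0
      one_ne_zero hyf (by rw [hdu0, idl_one hID]; exact top_sup_eq _)
    rw [FTg_eq hAG hID χ hf hM hX hy, ← h, cg_ui χ _ hy0]
    have hi0 : idl K (dd f M) y ≠ ⊥ := by
      rw [Ne, (hID K _ hduM).2.2.2.1 y hy]
      exact hy0
    have h2 : ‖ui χ y * χ.ψ (idl K (dd f M) y)‖ = 1 := by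
      rw [norm_mul, ui_norm hAG hPU χ hy0, χ.norm_one _ hi0 hyf, mul_one]
    have h3 : (ui χ y * χ.ψ (idl K (dd f M) y)) *
        (starRingEnd ℂ) (ui χ y * χ.ψ (idl K (dd f M) y)) = 1 := by
      rw [Complex.mul_conj, Complex.normSq_eq_norm_sq, h2]
      norm_num
    unfold WWg
    rw [mul_assoc, h3, mul_one]
  intro y hy
  by_cases hy0 : y = 0
  · subst hy0
    by_cases hft : f = ⊤
    · -- case (d)
      have hf1 : (f : FI K) = 1 := by rw [hft, FractionalIdeal.coeIdeal_top]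
      obtain ⟨y', hy'0, hy'⟩ := (hID K (dd f M) hduM).2.2.2.2.2.1
      have hA' := hA y' hy' hy'0 (by rw [hft]; exact sup_top_eq _)
      have h1 : ft K X (cg χ M) y' = ft K X (cg χ M) 0 := by
        unfold ft
        refine Finset.sum_congr rfl fun r hr => ?_
        have hrM : r ∈ M := hX.1 r hr
        have hyM : y' ∈ du K M := by
          have h2 : y' ∈ du K ((f : FI K) * M) := hy'
          rwa [hf1, one_mul] at h2
        rw [exp_trace_one r y' (trace_int M hM hrM hyM)]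
        simp
      have h2 : cg χ (dd f M) y' = cg χ (dd f M) 0 := by
        have h := cg_periodic hAG hID χ hf hduM (fzero _) (l := y') (by
          rw [hf1, one_mul]
          exact hy')
        rwa [zero_add] at h
      rw [← h1, ← h2]
      exact hA'
    · -- case (c)
      obtain ⟨P, hP, hfP⟩ := Ideal.exists_le_maximal f hft
      rw [cv_zero hAG hPU hID hDU χ hf hχ hM hX hP.isPrime hfP (FractionalIdeal.zero_mem _),
        cg_zero_of_ne_top hID χ hf hduM hft, map_zero, mul_zero]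
  · by_cases hyf : idl K (dd f M) y ⊔ f = ⊤
    · exact hA y hy hy0 hyf
    · -- case (b)
      obtain ⟨P, hP, hle⟩ := Ideal.exists_le_maximal _ hyf
      have hfP : f ≤ P := le_sup_right.trans hle
      have hiP : idl K (dd f M) y ≤ P := le_sup_left.trans hle
      have hmem : y ∈ (P : FI K) * dd f M := by
        have h1 := (hID K (dd f M) hduM).1 y hy
        have h2 : y ∈ (idl K (dd f M) y : FI K) * dd f M := by
          rw [h1]
          exact FractionalIdeal.mem_spanSingleton_self _ _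
        have h3 : (idl K (dd f M) y : FI K) ≤ (P : FI K) :=
          (FractionalIdeal.coeIdeal_le_coeIdeal K).2 hiP
        have h4 : (idl K (dd f M) y : FI K) * dd f M ≤ (P : FI K) * dd f M := by
          gcongr
        exact h4 h2
      rw [cv_zero hAG hPU hID hDU χ hf hχ hM hX hP.isPrime hfP hmem, cg_ui χ _ hy0,
        χ.eq_zero _ hyf, mul_zero, map_zero, mul_zero]

/-- the absolute value of the Gauss sum -/
theorem norm_W (hAG : U_AG) (hPU : T_PU) (hID : T_ID)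
    (hDU : Pool.Agent.H25.HK.T_DU) (hRX : T_RX) (χ : HG K f) (hf : f ≠ ⊥) {W : ℂ}
    (hW : ∀ (M : FI K) (X : Finset K), M ≠ 0 → Rep K f M X → ∀ y ∈ dd f M,
      ft K X (cg χ M) y = W * (starRingEnd ℂ) (cg χ (dd f M) y)) : ‖W‖ ^ 2 = Nf K f := by
  classical
  have hf0 : (f : FI K) ≠ 0 := coe_ideal_ne hf
  have hone : (1 : FI K) ≠ 0 := one_ne_zero
  have h1mem : (1 : K) ∈ (1 : FI K) := FractionalIdeal.one_mem_one _
  have hcf1 : cg χ 1 (1 : K) ≠ 0 := by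
    rw [cg_ui χ _ one_ne_zero, idl_one hID, χ.map_top, mul_one]
    intro h0
    have h := ui_norm hAG hPU χ (x := (1 : K)) one_ne_zero
    rw [h0, norm_zero] at h
    exact zero_ne_one h
  set N : FI K := dd f 1 with hNdef
  have hN : N ≠ 0 := dd_ne hDU hf hone
  have hNN : dd f N = 1 := dd_dd hDU hf hone
  obtain ⟨X, hX, -⟩ := hRX K f 1 hf hone
  obtain ⟨Y, hY, hYc⟩ := hRX K f N hf hN
  have hfM : (f : FI K) * 1 ≠ 0 := mul_ne_zero hf0 hone
  have hfN : (f : FI K) * N ≠ 0 := mul_ne_zero hf0 hN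
  have hMN : (1 : FI K) = du K ((f : FI K) * N) := hNN.symm
  have hLN : (f : FI K) * 1 = du K N := by
    rw [hNdef]
    show (f : FI K) * 1 = du K (du K ((f : FI K) * 1))
    rw [(hDU K _ hfM).2.1]
  have key : ∑ y ∈ Y, ft K X (cg χ 1) y * ex (y * (-1)) =
      (Ideal.absNorm f : ℂ) * cg χ 1 1 := by
    have e1 : ∑ y ∈ Y, ft K X (cg χ 1) y * ex (y * (-1)) =
        ∑ r ∈ X, cg χ 1 r * ∑ y ∈ Y, ex (y * (r + (-1))) := by
      simp only [ft_eq, Finset.sum_mul]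
      rw [Finset.sum_comm]
      refine Finset.sum_congr rfl fun r _ => ?_
      rw [Finset.mul_sum]
      refine Finset.sum_congr rfl fun y _ => ?_
      rw [mul_add, ex_add', mul_comm y r]
      ring
    rw [e1]
    have e2 : ∀ r ∈ X, cg χ 1 r * ∑ y ∈ Y, ex (y * (r + (-1))) =
        if r + (-1) ∈ (f : FI K) * 1 then (Ideal.absNorm f : ℂ) * cg χ 1 1 else 0 := by
      intro r hr
      rw [ortho (M := 1) hfM hN rfl hLN hfN hMN hY (fadd (hX.1 r hr) (fneg h1mem)), hYc]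
      split_ifs with h
      · have h3 := cg_periodic hAG hID χ hf hone h1mem h
        have h4 : 1 + (r + (-1)) = r := by ring
        rw [h4] at h3
        rw [h3, mul_comm]
      · rw [mul_zero]
    rw [Finset.sum_congr rfl e2, ← Finset.sum_filter, Finset.sum_const]
    obtain ⟨r0, ⟨h5, h6⟩, h7⟩ := hX.2 1 h1mem
    have h8 : X.filter (fun r => r + (-1) ∈ (f : FI K) * 1) = {r0} := by
      ext r
      rw [Finset.mem_filter, Finset.mem_singleton]
      constructor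
      · rintro ⟨h9, h10⟩
        refine h7 r ⟨h9, ?_⟩
        have h11 : 1 - r = -(r + (-1)) := by ring
        rw [h11]
        exact fneg h10
      · rintro rfl
        refine ⟨h5, ?_⟩
        have h11 : r + (-1) = -(1 - r) := by ring
        rw [h11]
        exact fneg h6
    rw [h8, Finset.card_singleton, one_smul]
  have e3 : ∑ y ∈ Y, ft K X (cg χ 1) y * ex (y * (-1)) =
      W * ((starRingEnd ℂ) W * cg χ 1 1) := by
    have e4 : ∀ y ∈ Y, ft K X (cg χ 1) y * ex (y * (-1)) =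
        W * (starRingEnd ℂ) (cg χ N y * ex (y * 1)) := by
      intro y hy
      rw [hW 1 X hone hX y (hY.1 y hy), map_mul, conj_ex, mul_neg]
      ring
    rw [Finset.sum_congr rfl e4, ← Finset.mul_sum, ← map_sum, ← ft_eq]
    rw [hW N Y hN hY 1 (by rw [hNN]; exact h1mem), hNN, map_mul, Complex.conj_conj]
  rw [e3] at key
  have h5 : (W * (starRingEnd ℂ) W - (Ideal.absNorm f : ℂ)) * cg χ 1 1 = 0 := by
    linear_combination key
  have h6 : W * (starRingEnd ℂ) W = (Ideal.absNorm f : ℂ) := by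
    rcases mul_eq_zero.1 h5 with h6 | h6
    · exact sub_eq_zero.1 h6
    · exact absurd h6 hcf1
  rw [Complex.mul_conj, Complex.normSq_eq_norm_sq] at h6
  unfold Nf
  exact_mod_cast h6

end

theorem pf_F_DU (hAG : U_AG) (hPU : T_PU) (hID : T_ID)
    (hDU : Pool.Agent.H25.HK.T_DU) (hRX : T_RX) (hRR : T_RR) (hDC : U_DC) :
    Pool.Agent.H23.BG.F_DU := by
  intro K _ _ f hf D χ hχ
  obtain ⟨W, hW⟩ := exists_W hAG hPU hID hDU hRX χ hf hχ
  have hN := norm_W hAG hPU hID hDU hRX χ hf hW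
  have hNf : 1 ≤ Nf K f := by
    unfold Nf
    have h : Ideal.absNorm f ≠ 0 := fun h => hf (Ideal.absNorm_eq_zero_iff.1 h)
    exact_mod_cast Nat.one_le_iff_ne_zero.2 h
  have hs0 : (0 : ℝ) < Real.sqrt (Nf K f) := Real.sqrt_pos.2 (by linarith)
  have hs0' : ((Real.sqrt (Nf K f) : ℝ) : ℂ) ≠ 0 := by exact_mod_cast hs0.ne'
  have hWn : ‖W‖ = Real.sqrt (Nf K f) := by
    rw [← hN, Real.sqrt_sq (norm_nonneg _)]
  refine ⟨((Real.sqrt (Nf K f) : ℝ) : ℂ)⁻¹ * W, ?_, ?_⟩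
  · rw [norm_mul, norm_inv, Complex.norm_real, Real.norm_of_nonneg hs0.le, hWn,
      inv_mul_cancel₀ hs0.ne']
  · intro J hJ
    have hReps := (hRR K D.ι (fun c => (f : FI K) * D.M c)
      ((hRR K D.ι D.M D.reps).1 f hf)).2.1
    obtain ⟨c, ⟨-, x, hx⟩, -⟩ := hReps.2 J hJ
    have hM : D.M c ≠ 0 := D.reps.1 c
    have hdu : dd f (D.M c) ≠ 0 := dd_ne hDU hf hM
    have hxe : (J : FI K) * dd f (D.M c) = FractionalIdeal.spanSingleton (𝓞 K)⁰ x := hx
    have hx0 : x ≠ 0 := by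
      rintro rfl
      rw [FractionalIdeal.spanSingleton_zero] at hxe
      exact mul_ne_zero (coe_ideal_ne hJ) hdu hxe
    have hxJ : x ∈ (J : FI K) * dd f (D.M c) := by
      rw [hxe]
      exact FractionalIdeal.mem_spanSingleton_self _ _
    have hxm : x ∈ dd f (D.M c) := sub_mem' hID hJ hdu hxJ
    have hidl : idl K (dd f (D.M c)) x = J := (hID K _ hdu).2.1 J x hxe
    have h1 := (hDC K f hf D χ).2 c x hxm hx0
    have h2 : ch D χ c x = W * (starRingEnd ℂ) (cg χ (dd f (D.M c)) x) :=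
      hW (D.M c) (D.X c) hM (D.rep c) x hxm
    rw [h2, cg_ui χ _ hx0, hidl] at h1
    have h3 : ui χ x * (starRingEnd ℂ) (ui χ x) = 1 := by
      rw [Complex.mul_conj, Complex.normSq_eq_norm_sq, ui_norm hAG hPU χ hx0]
      norm_num
    have h4 : ((Real.sqrt (Nf K f) : ℝ) : ℂ) * cd D χ J = W * (starRingEnd ℂ) (χ.ψ J) := by
      have h5 : ((Real.sqrt (Nf K f) : ℝ) : ℂ) * cd D χ J =
          W * (starRingEnd ℂ) (ui χ x * χ.ψ J) * (starRingEnd ℂ) (ag χ.k x) *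
            (starRingEnd ℂ) (ph χ.ν x) := h1
      rw [h5, map_mul]
      have h6 : (starRingEnd ℂ) (ag χ.k x) * (starRingEnd ℂ) (ph χ.ν x) = ui χ x := rfl
      linear_combination (W * (starRingEnd ℂ) (ui χ x) * (starRingEnd ℂ) (χ.ψ J)) * h6 +
        (W * (starRingEnd ℂ) (χ.ψ J)) * h3
    rw [mul_assoc, ← h4, inv_mul_cancel_left₀ hs0']

end Pool.Agent.H26.BG
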