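import Pool.Agent.H26.BG.AF

/-!
# The bound of Burgess and the hybrid Weyl bound for the `L`-function
-/

set_option autoImplicit false
set_option linter.unusedVariables false

open NumberField NumberField.InfinitePlace NumberField.Units
  NumberField.Units.dirichletUnitTheorem MeasureTheory Set Filter Complex
open scoped nonZeroDivisors ENNReal

namespace Pool.Agent.H26.BG

open Pool.Agent.H25.HK Pool.Agent.H23.LB Pool.Agent.H23.LC Pool.Agent.H29.DW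
open Pool.Agent.H28.RC (Rep ft idl)
open Pool.Agent.H23.BG

theorem one_le_cond {K : Type} [Field K] [NumberField K] {f : Ideal (𝓞 K)} (hf : f ≠ ⊥)
    (k : InfinitePlace K → ℤ) (ν : InfinitePlace K → ℝ) (t : ℝ) :
    1 ≤ |(discr K : ℝ)| * Nf K f * Ci k ν t :=
  one_le_mul_of_one_le_of_one_le
    (one_le_mul_of_one_le_of_one_le (one_le_discr (K := K)) (one_le_Nf hf)) (one_le_Ci k ν t)

theorem pf_F_WB (hBU : F_BU) (hDU : F_DU) (hAE : V_AE) (hGH : V_GH) (hDS : T_DS) (hDC : U_DC)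
    (hGE : U_GE) : Pool.Agent.H23.BG.F_WB := by
  intro n hn0 ε hε
  set e : ℝ := min ε 1 with he
  have he0 : 0 < e := lt_min hε one_pos
  have he1 : e ≤ 1 := min_le_right _ _
  have heε : e ≤ ε := min_le_left _ _
  set κ : ℝ := e / 32 with hκ
  have hκ0 : 0 < κ := by positivity
  have hκ1 : κ ≤ 1 := by rw [hκ]; linarith
  obtain ⟨C₁, hC₁, hP⟩ := hBU n hn0 e κ he0 he1 hκ0 le_rfl
  obtain ⟨C₀, hC₀, hA⟩ := afp hAE hGH hDS hDC hGE hDU n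
  refine ⟨2 * (C₁ * (C₀ * κ⁻¹)), ?_⟩
  intro K _ _ hn f hf χ hχ D L hL t
  obtain ⟨v, v', hv, hv', h1⟩ := hA κ hκ0 hκ1 K hn f hf χ hχ D L hL t
  have hB0 : 0 ≤ C₀ * κ⁻¹ := by positivity
  have h2 := hP K hn f hf χ hχ t (C₀ * κ⁻¹) v hB0 hv
  have h3 := hP K hn f hf χ hχ t (C₀ * κ⁻¹) v' hB0 hv'
  have hQ1 := one_le_cond hf χ.k χ.ν t
  have h4 : (|(discr K : ℝ)| * Nf K f * Ci χ.k χ.ν t) ^ e ≤
      (|(discr K : ℝ)| * Nf K f * Ci χ.k χ.ν t) ^ ε :=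
    Real.rpow_le_rpow_of_exponent_le hQ1 heε
  have hN0 : 0 ≤ Nf K f := by have := one_le_Nf hf; linarith
  have hCi0 : 0 ≤ Ci χ.k χ.ν t := by have := one_le_Ci χ.k χ.ν t; linarith
  calc ‖L (1 / 2 + t * I)‖ ≤ _ := h1
    _ ≤ _ := add_le_add h2 h3
    _ = 2 * (C₁ * (C₀ * κ⁻¹)) * (|(discr K : ℝ)| * Nf K f * Ci χ.k χ.ν t) ^ e *
        (|(discr K : ℝ)| ^ (1 / 4 : ℝ) * Ci χ.k χ.ν t ^ (1 / 4 : ℝ) *
          Nf K f ^ (1 / 4 - 1 / (16 * (n : ℝ)))) := by ring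
    _ ≤ _ := by gcongr

theorem pf_F_WD (hBD : F_BD) (hDU : F_DU) (hAE : V_AE) (hGH : V_GH) (hDS : T_DS) (hDC : U_DC)
    (hGE : U_GE) (hHR : Pool.Agent.H29.TC.T_HR) : Pool.Agent.H23.BG.F_WD := by
  intro n hn0 ε hε
  set e : ℝ := min ε 1 / 2 with he
  have he0 : 0 < e := by
    rw [he]
    have := lt_min hε one_pos
    positivity
  have he1 : e ≤ 1 := by
    rw [he]
    have := min_le_right ε 1
    linarith
  have heε : e ≤ ε := by
    rw [he]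
    have := min_le_left ε 1
    have := min_le_right ε 1
    have := lt_min hε one_pos
    linarith
  set κ : ℝ := e / 32 with hκ
  have hκ0 : 0 < κ := by positivity
  have hκ1 : κ ≤ 1 := by rw [hκ]; linarith
  obtain ⟨C₁, hC₁, hP⟩ := hBD n hn0 e κ he0 he1 hκ0 le_rfl
  obtain ⟨C₀, hC₀, hA⟩ := afp hAE hGH hDS hDC hGE hDU n
  obtain ⟨C₄, hR⟩ := hHR n e he0
  refine ⟨2 * (Real.sqrt C₁ * (C₀ * κ⁻¹)) * Real.sqrt (2 * max 0 C₄), ?_⟩
  intro K _ _ hn f hf χ hχ D L hL t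
  obtain ⟨v, v', hv, hv', h1⟩ := hA κ hκ0 hκ1 K hn f hf χ hχ D L hL t
  have hB0 : 0 ≤ C₀ * κ⁻¹ := by positivity
  have h2 := hP K hn f hf χ t (C₀ * κ⁻¹) v hB0 hv
  have h3 := hP K hn f hf χ t (C₀ * κ⁻¹) v' hB0 hv'
  have hQ1 := one_le_cond hf χ.k χ.ν t
  have hd1 := one_le_discr (K := K)
  have hNf1 := one_le_Nf hf
  have hCi1 := one_le_Ci χ.k χ.ν t
  set Q : ℝ := |(discr K : ℝ)| * Nf K f * Ci χ.k χ.ν t with hQd
  have hQ0 : 0 < Q := by linarith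
  set B : ℝ := C₀ * κ⁻¹ with hB
  -- the common bound
  set W : ℝ := Q ^ e * ((classNumber K * regulator K) * (Nf K f + 1) *
    Ci χ.k χ.ν t ^ (1 / 3 : ℝ)) with hW
  have hreg : 0 < regulator K := regulator_pos K
  have hW0 : 0 ≤ W := by
    rw [hW]
    positivity
  have hroot : ∀ (S : ℂ), ‖S‖ ^ 2 ≤ C₁ * B ^ 2 * Q ^ e *
      ((classNumber K * regulator K) * (Nf K f + 1) *
        Ci χ.k χ.ν t ^ (1 / 3 : ℝ)) → ‖S‖ ≤ Real.sqrt C₁ * B * Real.sqrt W := by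
    intro S h
    have h5 : ‖S‖ ^ 2 ≤ (Real.sqrt C₁ * B * Real.sqrt W) ^ 2 := by
      rw [mul_pow, mul_pow, Real.sq_sqrt hC₁, Real.sq_sqrt hW0, hW]
      refine h.trans (le_of_eq ?_)
      ring
    exact le_of_sq_le_sq h5 (by positivity)
  have h5 := hroot _ h2
  have h6 := hroot _ h3
  have hWle : Real.sqrt W ≤ Real.sqrt (2 * max 0 C₄) * (Q ^ ε * (|(discr K : ℝ)| ^ (1 / 4 : ℝ) *
      Nf K f ^ (1 / 2 : ℝ) * Ci χ.k χ.ν t ^ (1 / 6 : ℝ))) := by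
    have h7 : (classNumber K : ℝ) * regulator K ≤
        max 0 C₄ * (|(discr K : ℝ)| ^ (1 / 2 : ℝ) * Q ^ e) := by
      refine (hR K hn).trans ?_
      rw [Real.rpow_add (by linarith)]
      have h8 : |(discr K : ℝ)| ^ e ≤ Q ^ e := by
        refine Real.rpow_le_rpow (by positivity) ?_ he0.le
        rw [hQd]
        calc |(discr K : ℝ)| = |(discr K : ℝ)| * 1 * 1 := by ring
          _ ≤ |(discr K : ℝ)| * Nf K f * Ci χ.k χ.ν t := by gcongr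
      have h9 : 0 ≤ |(discr K : ℝ)| ^ (1 / 2 : ℝ) := by positivity
      have h10 : 0 ≤ |(discr K : ℝ)| ^ e := by positivity
      calc C₄ * (|(discr K : ℝ)| ^ (1 / 2 : ℝ) * |(discr K : ℝ)| ^ e)
          ≤ max 0 C₄ * (|(discr K : ℝ)| ^ (1 / 2 : ℝ) * |(discr K : ℝ)| ^ e) := by
            gcongr
            exact le_max_right _ _
        _ ≤ _ := by gcongr
    have h8 : W ≤ 2 * max 0 C₄ * (Q ^ (2 * e) * (|(discr K : ℝ)| ^ (1 / 2 : ℝ) *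
        Nf K f * Ci χ.k χ.ν t ^ (1 / 3 : ℝ))) := by
      rw [hW]
      calc Q ^ e * ((classNumber K * regulator K) * (Nf K f + 1) *
            Ci χ.k χ.ν t ^ (1 / 3 : ℝ))
          ≤ Q ^ e * ((max 0 C₄ * (|(discr K : ℝ)| ^ (1 / 2 : ℝ) * Q ^ e)) *
            (2 * Nf K f) * Ci χ.k χ.ν t ^ (1 / 3 : ℝ)) := by
            gcongr
            linarith
        _ = _ := by
            rw [show (2 * e : ℝ) = e + e by ring, Real.rpow_add hQ0]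
            ring
    have h9 : W ≤ 2 * max 0 C₄ * (Q ^ ε * (|(discr K : ℝ)| ^ (1 / 4 : ℝ) *
      Nf K f ^ (1 / 2 : ℝ) * Ci χ.k χ.ν t ^ (1 / 6 : ℝ))) ^ 2 := by
      refine h8.trans ?_
      refine mul_le_mul_of_nonneg_left ?_ (by positivity)
      rw [mul_pow, mul_pow, mul_pow]
      have e1 : (|(discr K : ℝ)| ^ (1 / 4 : ℝ)) ^ 2 = |(discr K : ℝ)| ^ (1 / 2 : ℝ) := by
        rw [← Real.rpow_natCast, ← Real.rpow_mul (by positivity)]
        norm_num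
      have e2 : (Nf K f ^ (1 / 2 : ℝ)) ^ 2 = Nf K f := by
        rw [← Real.rpow_natCast, ← Real.rpow_mul (by positivity)]
        norm_num
      have e3 : (Ci χ.k χ.ν t ^ (1 / 6 : ℝ)) ^ 2 = Ci χ.k χ.ν t ^ (1 / 3 : ℝ) := by
        rw [← Real.rpow_natCast, ← Real.rpow_mul (by positivity)]
        norm_num
      have e4 : Q ^ (2 * e) ≤ (Q ^ ε) ^ 2 := by
        rw [← Real.rpow_natCast, ← Real.rpow_mul hQ0.le]
        refine Real.rpow_le_rpow_of_exponent_le hQ1 ?_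
        push_cast
        linarith
      rw [e1, e2, e3]
      gcongr
    calc Real.sqrt W ≤ Real.sqrt (2 * max 0 C₄ * (Q ^ ε * (|(discr K : ℝ)| ^ (1 / 4 : ℝ) *
      Nf K f ^ (1 / 2 : ℝ) * Ci χ.k χ.ν t ^ (1 / 6 : ℝ))) ^ 2) :=
          Real.sqrt_le_sqrt h9
      _ = _ := by
          rw [Real.sqrt_mul (by positivity), Real.sqrt_sq (by positivity)]
  calc ‖L (1 / 2 + t * I)‖ ≤ _ := h1
    _ ≤ _ := add_le_add h5 h6
    _ = 2 * (Real.sqrt C₁ * B) * Real.sqrt W := by ring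
    _ ≤ 2 * (Real.sqrt C₁ * B) * (Real.sqrt (2 * max 0 C₄) * (Q ^ ε *
        (|(discr K : ℝ)| ^ (1 / 4 : ℝ) * Nf K f ^ (1 / 2 : ℝ) *
          Ci χ.k χ.ν t ^ (1 / 6 : ℝ)))) := by gcongr
    _ = _ := by ring

/-- the comparison of the two bounds -/
theorem min_bound (n : ℕ) (hn : 0 < n) (N Q : ℝ) (hN : 1 ≤ N) (hQ : 1 ≤ Q) :
    min (Q ^ (1 / 4 : ℝ) * N ^ (1 / 4 - 1 / (16 * (n : ℝ)))) (N ^ (1 / 2 : ℝ) * Q ^ (1 / 6 : ℝ)) ≤
      (N * Q) ^ (1 / 4 - 1 / (64 * (n : ℝ) + 12)) := by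
  have hn' : (0 : ℝ) < n := by exact_mod_cast hn
  have hN0 : 0 < N := by linarith
  have hQ0 : 0 < Q := by linarith
  set q : ℝ := N * Q with hq
  have hq0 : 0 < q := by positivity
  have hq1 : 1 ≤ q := one_le_mul_of_one_le_of_one_le hN hQ
  have hQe : Q = q / N := by
    rw [hq]
    field_simp
  rcases le_total (q ^ (4 * (n : ℝ) / (16 * n + 3))) N with h | h
  · refine (min_le_left _ _).trans ?_
    have h1 : Q ^ (1 / 4 : ℝ) * N ^ (1 / 4 - 1 / (16 * (n : ℝ))) =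
        q ^ (1 / 4 : ℝ) * N ^ (-(1 / (16 * (n : ℝ)))) := by
      rw [hq, Real.mul_rpow hN0.le hQ0.le, sub_eq_add_neg, Real.rpow_add hN0]
      ring
    rw [h1]
    have h2 : N ^ (-(1 / (16 * (n : ℝ)))) ≤
        (q ^ (4 * (n : ℝ) / (16 * n + 3))) ^ (-(1 / (16 * (n : ℝ)))) :=
      Real.rpow_le_rpow_of_nonpos (by positivity) h (by
        rw [neg_nonpos]
        positivity)
    refine (mul_le_mul_of_nonneg_left h2 (by positivity)).trans (le_of_eq ?_)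
    rw [← Real.rpow_mul hq0.le, ← Real.rpow_add hq0]
    congr 1
    field_simp
    ring
  · refine (min_le_right _ _).trans ?_
    have h1 : N ^ (1 / 2 : ℝ) * Q ^ (1 / 6 : ℝ) = q ^ (1 / 6 : ℝ) * N ^ (1 / 3 : ℝ) := by
      rw [hq, Real.mul_rpow hN0.le hQ0.le, show (1 / 2 : ℝ) = 1 / 6 + 1 / 3 by norm_num,
        Real.rpow_add hN0]
      ring
    rw [h1]
    have h2 : N ^ (1 / 3 : ℝ) ≤ (q ^ (4 * (n : ℝ) / (16 * n + 3))) ^ (1 / 3 : ℝ) :=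
      Real.rpow_le_rpow hN0.le h (by norm_num)
    refine (mul_le_mul_of_nonneg_left h2 (by positivity)).trans (le_of_eq ?_)
    rw [← Real.rpow_mul hq0.le, ← Real.rpow_add hq0]
    congr 1
    field_simp
    ring

theorem pf_F_FI (hWB : F_WB) (hWD : F_WD) (hSY : T_SY) (hFK : U_FK) :
    Pool.Agent.H23.BG.F_FI := by
  intro n hn0 ε hε
  obtain ⟨C₁, h₁⟩ := hWB n hn0 ε hε
  obtain ⟨C₂, h₂⟩ := hWD n hn0 ε hε
  refine ⟨max 0 (max C₁ C₂), ?_⟩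
  intro K _ _ hn f hf χ hχ
  obtain ⟨D⟩ := hSY K f hf
  obtain ⟨L, hL, hent⟩ := hFK K f hf D χ
  refine ⟨L, hL.1, hL.2.1, hent, fun t => ?_⟩
  have hQ1 := one_le_cond hf χ.k χ.ν t
  have hd1 := one_le_discr (K := K)
  have hNf1 := one_le_Nf hf
  have hCi1 := one_le_Ci χ.k χ.ν t
  have hN0 : 0 < Nf K f := by linarith
  have hC0 : 0 < Ci χ.k χ.ν t := by linarith
  have hm0 : 0 ≤ max 0 (max C₁ C₂) := le_max_left _ _
  have hm1 : C₁ ≤ max 0 (max C₁ C₂) := (le_max_left _ _).trans (le_max_right _ _)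
  have hm2 : C₂ ≤ max 0 (max C₁ C₂) := (le_max_right _ _).trans (le_max_right _ _)
  have a1 : ‖L (1 / 2 + t * I)‖ ≤ max 0 (max C₁ C₂) *
      (|(discr K : ℝ)| * Nf K f * Ci χ.k χ.ν t) ^ ε *
        (|(discr K : ℝ)| ^ (1 / 4 : ℝ) * Ci χ.k χ.ν t ^ (1 / 4 : ℝ) *
          Nf K f ^ (1 / 4 - 1 / (16 * (n : ℝ)))) := by
    refine (h₁ K hn f hf χ hχ D L hL t).trans ?_
    gcongr
  have a2 : ‖L (1 / 2 + t * I)‖ ≤ max 0 (max C₁ C₂) *
      (|(discr K : ℝ)| * Nf K f * Ci χ.k χ.ν t) ^ ε *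
        (|(discr K : ℝ)| ^ (1 / 4 : ℝ) * Nf K f ^ (1 / 2 : ℝ) *
          Ci χ.k χ.ν t ^ (1 / 6 : ℝ)) := by
    refine (h₂ K hn f hf χ hχ D L hL t).trans ?_
    gcongr
  refine ⟨a1, ?_⟩
  have h3 := min_bound n hn0 (Nf K f) (Ci χ.k χ.ν t) hNf1 hCi1
  have hA : 0 ≤ max 0 (max C₁ C₂) * (|(discr K : ℝ)| * Nf K f * Ci χ.k χ.ν t) ^ ε := by
    positivity
  have hd0 : 0 ≤ |(discr K : ℝ)| ^ (1 / 4 : ℝ) := by positivity
  rcases min_le_iff.1 h3 with h4 | h4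
  · refine a1.trans ?_
    refine mul_le_mul_of_nonneg_left ?_ hA
    rw [mul_assoc]
    exact mul_le_mul_of_nonneg_left h4 hd0
  · refine a2.trans ?_
    refine mul_le_mul_of_nonneg_left ?_ hA
    rw [mul_assoc]
    exact mul_le_mul_of_nonneg_left h4 hd0

end Pool.Agent.H26.BG
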