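import Pool.Agent.H23.BG.TargetsF
import Pool.Agent.H29.DW.WY

/-!
# The approximate functional equation of a primitive Hecke character
-/

set_option autoImplicit false
set_option linter.unusedVariables false

open NumberField NumberField.InfinitePlace NumberField.Units
  NumberField.Units.dirichletUnitTheorem MeasureTheory Set Filter Complex
open scoped nonZeroDivisors ENNReal

namespace Pool.Agent.H26.BG

open Pool.Agent.H25.HK Pool.Agent.H23.LB Pool.Agent.H23.LC Pool.Agent.H29.DW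
open Pool.Agent.H28.RC (Rep ft idl)
open Pool.Agent.H23.BG

/-- the approximate functional equation -/
theorem afe (hAE : V_AE) (hGH : V_GH) (hDS : T_DS) (hDC : U_DC) (hGE : U_GE) (n : ℕ) :
    ∃ C : ℝ, 0 ≤ C ∧ ∀ κ : ℝ, 0 < κ → κ ≤ 1 → ∀ (K : Type) [Field K] [NumberField K],
    Module.finrank ℚ K = n → ∀ f : Ideal (𝓞 K), f ≠ ⊥ → ∀ (χ : HG K f)
    (D : Sys K f) (L : ℂ → ℂ), IsL D χ L → ∀ t : ℝ, ∃ v v' : ℝ → ℂ,
    Wt κ (Real.sqrt (|(discr K : ℝ)| * Nf K f * Ci χ.k χ.ν t)) (C * κ⁻¹) v ∧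
    Wt κ (Real.sqrt (|(discr K : ℝ)| * Nf K f * Ci χ.k χ.ν t)) (C * κ⁻¹) v' ∧
    L (1 / 2 + t * I) = ∑' J : NZI K, χ.ψ J.1 * v (Ideal.absNorm J.1) *
        (Ideal.absNorm J.1 : ℂ) ^ (-(t * I : ℂ)) +
      ∑' J : NZI K, cd D χ J.1 * v' (Ideal.absNorm J.1) *
        (Ideal.absNorm J.1 : ℂ) ^ (t * I : ℂ) := by
  obtain ⟨C₀, hC₀, hA⟩ := hAE n
  obtain ⟨C₃, hC₃, hG⟩ := hGH n
  have hM1 : 1 ≤ max 1 C₃ := le_max_left _ _
  refine ⟨C₀ * max 1 C₃, by positivity, ?_⟩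
  intro κ hκ0 hκ1 K _ _ hn f hf0 χ D L hL t
  obtain ⟨h1, h2, ⟨E, hE1, hE2, hE3⟩, h4⟩ := hL
  have hd1 := one_le_discr (K := K)
  have hNf1 := one_le_Nf hf0
  have hCi1 := one_le_Ci χ.k χ.ν t
  set Q : ℝ := |(discr K : ℝ)| * Nf K f * Ci χ.k χ.ν t with hQd
  have hQ1 : 1 ≤ Q := by
    rw [hQd]
    exact one_le_mul_of_one_le_of_one_le (one_le_mul_of_one_le_of_one_le hd1 hNf1) hCi1
  have hQ0 : 0 < Q := by linarith
  set X : ℝ := Real.sqrt Q with hX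
  have hX0 : 0 < X := Real.sqrt_pos.2 hQ0
  -- the factor of the functional equation
  have hgf : ∀ s : ℂ, 1 / 2 ≤ s.re → s.re ≤ 3 / 2 → ‖gf χ s‖ ≤
      max 1 C₃ * X ^ (2 * (s.re - 1 / 2)) * (1 + |s.im + t|) ^ n := by
    intro s hs hs'
    have h5 := hG K hn χ.k χ.ν t χ.real_k s hs hs'
    have hdN : 0 < |(discr K : ℝ)| * Nf K f := by positivity
    unfold gf
    rw [norm_mul, norm_mul, norm_pow, norm_neg, Complex.norm_I, one_pow, one_mul,
      Complex.norm_cpow_eq_rpow_re_of_pos hdN]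
    have h6 : (s - 1 / 2 : ℂ).re = s.re - 1 / 2 := by
      rw [Complex.sub_re]
      norm_num
    rw [h6]
    have h7 : X ^ (2 * (s.re - 1 / 2)) = (|(discr K : ℝ)| * Nf K f) ^ (s.re - 1 / 2) *
        Ci χ.k χ.ν t ^ (s.re - 1 / 2) := by
      rw [hX, Real.sqrt_eq_rpow, ← Real.rpow_mul hQ0.le, hQd,
        ← Real.mul_rpow hdN.le (by linarith)]
      congr 1
      ring
    rw [h7]
    have h8 : C₃ * Ci χ.k χ.ν t ^ (s.re - 1 / 2) * (1 + |s.im + t|) ^ n ≤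
        max 1 C₃ * Ci χ.k χ.ν t ^ (s.re - 1 / 2) * (1 + |s.im + t|) ^ n := by
      gcongr
      exact le_max_right _ _
    calc (|(discr K : ℝ)| * Nf K f) ^ (s.re - 1 / 2) *
          ‖gG K χ.k (-χ.ν) s * (gG K χ.k χ.ν (1 - s))⁻¹‖
        ≤ (|(discr K : ℝ)| * Nf K f) ^ (s.re - 1 / 2) *
          (max 1 C₃ * Ci χ.k χ.ν t ^ (s.re - 1 / 2) * (1 + |s.im + t|) ^ n) :=
          mul_le_mul_of_nonneg_left (h5.trans h8) (by positivity)
      _ = _ := by ring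
  obtain ⟨v, v', hv, hv', hL⟩ := hA κ hκ0 hκ1 (NZI K) L E (gf χ) (fun J => χ.ψ J.1)
    (fun J => cd D χ J.1) (fun J => (Ideal.absNorm J.1 : ℝ)) X t (max 1 C₃) hX0
    (le_max_left _ _)
    (fun J => one_le_Nf J.2)
    (fun σ hσ => by
      have h5 := (hDS K (σ : ℂ) (by simpa using hσ)).1
      refine h5.congr fun J => ?_
      have h6 : (0 : ℝ) < (Ideal.absNorm J.1 : ℝ) := by
        have := one_le_Nf J.2
        unfold Nf at this
        linarith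
      have h7 := Complex.norm_cpow_eq_rpow_re_of_pos h6 (-(σ : ℂ))
      rw [Complex.ofReal_natCast] at h7
      rw [h7]
      simp only [Complex.neg_re, Complex.ofReal_re])
    ⟨max 1 (Real.sqrt (Nf K f)), fun J => ⟨(norm_psi_le χ J.1).trans (le_max_left _ _),
      ((hDC K _ hf0 D χ).1 J.1).trans (le_max_right _ _)⟩⟩
    hE1 hE2 (hE3 3)
    (fun s hs => by
      rw [h1 s hs]
      unfold HG.series
      refine tsum_congr fun J => ?_
      rw [Complex.ofReal_natCast])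
    (fun s hs => by
      rw [h4 s hs]
      unfold serd
      exact congrArg (fun z => gf χ s * z) (tsum_congr fun J => by
        rw [Complex.ofReal_natCast]))
    (fun s hs => gf_diff hGE hf0 χ s hs) hgf
  have hB : C₀ * κ⁻¹ * max 1 C₃ = C₀ * max 1 C₃ * κ⁻¹ := by ring
  rw [hB] at hv hv'
  refine ⟨v, v', hv, hv', ?_⟩
  rw [hL]
  have hS : ∑' J : NZI K, χ.ψ J.1 * v (Ideal.absNorm J.1 : ℝ) *
      (((Ideal.absNorm J.1 : ℝ) : ℂ)) ^ (-(t * I : ℂ)) =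
      ∑' J : NZI K, χ.ψ J.1 * v (Ideal.absNorm J.1) *
      (Ideal.absNorm J.1 : ℂ) ^ (-(t * I : ℂ)) :=
    tsum_congr fun J => by rw [Complex.ofReal_natCast]
  have hS' : ∑' J : NZI K, cd D χ J.1 * v' (Ideal.absNorm J.1 : ℝ) *
      (((Ideal.absNorm J.1 : ℝ) : ℂ)) ^ (t * I : ℂ) =
      ∑' J : NZI K, cd D χ J.1 * v' (Ideal.absNorm J.1) *
      (Ideal.absNorm J.1 : ℂ) ^ (t * I : ℂ) :=
    tsum_congr fun J => by rw [Complex.ofReal_natCast]
  rw [hS, hS']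

/-- the complex conjugate of a weight -/
theorem Wt_conj {κ X B : ℝ} {v : ℝ → ℂ} (h : Wt κ X B v) :
    Wt κ X B (fun x => (starRingEnd ℂ) (v x)) := by
  intro σ hσ
  obtain ⟨g, h1, h2, h3⟩ := h σ hσ
  refine ⟨fun y => (starRingEnd ℂ) (g (-y)), ?_, fun y => ?_, fun x hx => ?_⟩
  · exact Complex.continuous_conj.measurable.comp (h1.comp measurable_neg)
  · rw [RCLike.norm_conj]
    have := h2 (-y)
    rwa [neg_sq] at this
  · simp only
    rw [h3 x hx, ← integral_conj, ← integral_neg_eq_self]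
    refine integral_congr_ae (Filter.Eventually.of_forall fun y => ?_)
    simp only [map_mul]
    congr 1
    have hx' : ((x : ℂ)).arg ≠ Real.pi := by
      rw [Complex.arg_ofReal_of_nonneg hx.le]
      exact Real.pi_pos.ne
    have h4 : (starRingEnd ℂ) (-(1 / 2 + σ + ((-y : ℝ) : ℂ) * I : ℂ)) =
        -(1 / 2 + σ + (y : ℂ) * I : ℂ) := by
      simp only [map_neg, map_add, map_mul, map_div₀, map_one, Complex.conj_ofReal,
        Complex.conj_I, Complex.ofReal_neg, map_ofNat]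
      ring
    have h5 := Complex.cpow_conj (x : ℂ) (-(1 / 2 + σ + ((-y : ℝ) : ℂ) * I : ℂ)) hx'
    rw [Complex.conj_ofReal, h4] at h5
    exact h5.symm

/-- the approximate functional equation of a primitive character -/
theorem afp (hAE : V_AE) (hGH : V_GH) (hDS : T_DS) (hDC : U_DC) (hGE : U_GE) (hDU : F_DU)
    (n : ℕ) :
    ∃ C : ℝ, 0 ≤ C ∧ ∀ κ : ℝ, 0 < κ → κ ≤ 1 → ∀ (K : Type) [Field K] [NumberField K],
    Module.finrank ℚ K = n → ∀ f : Ideal (𝓞 K), f ≠ ⊥ → ∀ (χ : HG K f), PrG f χ →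
    ∀ (D : Sys K f) (L : ℂ → ℂ), IsL D χ L → ∀ t : ℝ, ∃ v v' : ℝ → ℂ,
    Wt κ (Real.sqrt (|(discr K : ℝ)| * Nf K f * Ci χ.k χ.ν t)) (C * κ⁻¹) v ∧
    Wt κ (Real.sqrt (|(discr K : ℝ)| * Nf K f * Ci χ.k χ.ν t)) (C * κ⁻¹) v' ∧
    ‖L (1 / 2 + t * I)‖ ≤ ‖∑' J : NZI K, χ.ψ J.1 * v (Ideal.absNorm J.1) *
        (Ideal.absNorm J.1 : ℂ) ^ (-(t * I : ℂ))‖ +
      ‖∑' J : NZI K, χ.ψ J.1 * v' (Ideal.absNorm J.1) *
        (Ideal.absNorm J.1 : ℂ) ^ (-(t * I : ℂ))‖ := by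
  obtain ⟨C, hC, h⟩ := afe hAE hGH hDS hDC hGE n
  refine ⟨C, hC, ?_⟩
  intro κ hκ0 hκ1 K _ _ hn f hf0 χ hχ D L hL t
  obtain ⟨v, v', hv, hv', h1⟩ := h κ hκ0 hκ1 K hn f hf0 χ D L hL t
  obtain ⟨W, hW, h2⟩ := hDU K f hf0 D χ hχ
  refine ⟨v, fun x => (starRingEnd ℂ) (v' x), hv, Wt_conj hv', ?_⟩
  rw [h1]
  refine (norm_add_le _ _).trans ?_
  refine add_le_add le_rfl ?_
  have h3 : ∑' J : NZI K, cd D χ J.1 * v' (Ideal.absNorm J.1) *
        (Ideal.absNorm J.1 : ℂ) ^ (t * I : ℂ) =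
      W * (starRingEnd ℂ) (∑' J : NZI K, χ.ψ J.1 * (starRingEnd ℂ) (v' (Ideal.absNorm J.1)) *
        (Ideal.absNorm J.1 : ℂ) ^ (-(t * I : ℂ))) := by
    rw [Complex.conj_tsum, ← tsum_mul_left]
    refine tsum_congr fun J => ?_
    rw [h2 J.1 J.2]
    simp only [map_mul, Complex.conj_conj]
    have h4 : ((Ideal.absNorm J.1 : ℂ)).arg ≠ Real.pi := by
      rw [Complex.natCast_arg]
      exact Real.pi_pos.ne
    have h5 := Complex.cpow_conj (Ideal.absNorm J.1 : ℂ) (-(t * I : ℂ)) h4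
    rw [Complex.conj_natCast] at h5
    rw [← h5]
    have h6 : (starRingEnd ℂ) (-(t * I : ℂ)) = t * I := by
      simp only [map_neg, map_mul, Complex.conj_ofReal, Complex.conj_I]
      ring
    rw [h6]
    ring
  rw [h3, norm_mul, RCLike.norm_conj]
  calc ‖W‖ * _ ≤ 1 * _ := mul_le_mul_of_nonneg_right hW (norm_nonneg _)
    _ = _ := one_mul _

end Pool.Agent.H26.BG
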